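import Pool.Agent.V5helper19.QC.Stm

/-! Project QC, job MO: the largest term of the q-binomial distribution. -/

set_option autoImplicit false
open Finset

namespace V5helper84.QC

open V5helper19.QC

lemma geo (n : ℕ) (α : ℝ) (hα : 0 < α) (hN : 2 ≤ NN n α) :
    ∑ i ∈ range n, Real.exp (-α) ^ i ≤ 2 * NN n α := by
  have hα2 : α ≤ 1 / 2 := by
    have h1 : 2 ≤ 1 / α := hN.trans (min_le_right _ _)
    rw [le_div_iff₀ hα] at h1
    linarith
  have hq0 : 0 < Real.exp (-α) := Real.exp_pos _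
  have hq1 : Real.exp (-α) ≤ 1 - α / 2 := by
    rw [Real.exp_neg]
    have h1 : α + 1 ≤ Real.exp α := Real.add_one_le_exp α
    have h2 : (Real.exp α)⁻¹ ≤ (α + 1)⁻¹ := inv_anti₀ (by linarith) h1
    refine h2.trans ?_
    rw [inv_le_iff_one_le_mul₀ (by linarith)]
    nlinarith
  have h1 : ∑ i ∈ range n, Real.exp (-α) ^ i ≤ n := by
    calc ∑ i ∈ range n, Real.exp (-α) ^ i ≤ ∑ _i ∈ range n, (1 : ℝ) :=
          sum_le_sum fun i _ => pow_le_one₀ hq0.le (by linarith)
      _ = n := by simp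
  have h2 : ∑ i ∈ range n, Real.exp (-α) ^ i ≤ 2 / α := by
    have h3 := geom_sum_mul_neg (Real.exp (-α)) n
    have h4 : 0 ≤ ∑ i ∈ range n, Real.exp (-α) ^ i := sum_nonneg fun i _ => by positivity
    have h5 : 0 ≤ Real.exp (-α) ^ n := by positivity
    rw [le_div_iff₀ hα]
    nlinarith
  have h3 : 0 ≤ NN n α := by linarith
  unfold NN
  rcases le_total (n : ℝ) (1 / α) with h | h
  · rw [min_eq_left h]
    have : (0 : ℝ) ≤ n := Nat.cast_nonneg n
    linarith
  · rw [min_eq_right h]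
    calc _ ≤ 2 / α := h2
      _ = 2 * (1 / α) := by ring

/-- the terms of the distribution -/
noncomputable def ff (n : ℕ) (q s : ℝ) (r : ℕ) : ℝ := q ^ (r.choose 2) * QB (2 * n) r q * s ^ r

lemma pow_lt_one' {q : ℝ} (h0 : 0 < q) (h1 : q < 1) {i : ℕ} (hi : 1 ≤ i) : q ^ i < 1 :=
  pow_lt_one₀ h0.le h1 (by omega)

lemma QB_nonneg {q : ℝ} (h0 : 0 < q) (h1 : q < 1) (N r : ℕ) (_hr : r ≤ N) : 0 ≤ QB N r q := by
  unfold QB
  apply prod_nonneg
  intro i _
  apply div_nonneg
  · have : q ^ (N - i) ≤ 1 := pow_le_one₀ h0.le h1.le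
    linarith
  · have : q ^ (i + 1) ≤ 1 := pow_le_one₀ h0.le h1.le
    linarith

lemma ff_nonneg {q s : ℝ} (h0 : 0 < q) (h1 : q < 1) (hs : 0 < s) (n r : ℕ) (hr : r ≤ 2 * n) : 0 ≤ ff n q s r := by
  unfold ff
  have := QB_nonneg h0 h1 (2 * n) r hr
  positivity

lemma ff_succ {q s : ℝ} (_h0 : 0 < q) (_h1 : q < 1) (n r : ℕ) :
    ff n q s (r + 1) = ff n q s r * (q ^ r * s) * ((1 - q ^ (2 * n - r)) / (1 - q ^ (r + 1))) := by
  unfold ff QB
  rw [prod_range_succ, pow_succ s, show (r + 1).choose 2 = r.choose 2 + r by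
    rw [Nat.choose_succ_succ' r 1, Nat.choose_one_right]; ring, pow_add q]
  ring

lemma ff_le {q s : ℝ} (h0 : 0 < q) (h1 : q < 1) (hs : 0 < s) (n : ℕ)
    (ha : ∀ r, r < n → 1 ≤ q ^ r * s) (hb : ∀ r, n ≤ r → q ^ r * s ≤ 1) : ∀ r, r ≤ 2 * n → ff n q s r ≤ ff n q s n := by
  have hA : ∀ r, r < n → ff n q s r ≤ ff n q s (r + 1) := by
    intro r hr
    rw [ff_succ h0 h1]
    have h2 := ff_nonneg h0 h1 hs n r (by omega)
    have h3 := ha r hr
    have h4 : q ^ (r + 1) < 1 := pow_lt_one' h0 h1 (by omega)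
    have h5 : 1 ≤ (1 - q ^ (2 * n - r)) / (1 - q ^ (r + 1)) := by
      rw [le_div_iff₀ (by linarith)]
      have : q ^ (2 * n - r) ≤ q ^ (r + 1) := pow_le_pow_of_le_one h0.le h1.le (by omega)
      linarith
    calc ff n q s r = ff n q s r * 1 * 1 := by ring
      _ ≤ ff n q s r * (q ^ r * s) * ((1 - q ^ (2 * n - r)) / (1 - q ^ (r + 1))) := by gcongr
  have hB : ∀ r, n ≤ r → r < 2 * n → ff n q s (r + 1) ≤ ff n q s r := by
    intro r hr hr2
    rw [ff_succ h0 h1]
    have h2 := ff_nonneg h0 h1 hs n r (by omega)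
    have h3 := hb r hr
    have h4 : q ^ (r + 1) < 1 := pow_lt_one' h0 h1 (by omega)
    have h5 : (1 - q ^ (2 * n - r)) / (1 - q ^ (r + 1)) ≤ 1 := by
      rw [div_le_one (by linarith)]
      have : q ^ (r + 1) ≤ q ^ (2 * n - r) := pow_le_pow_of_le_one h0.le h1.le (by omega)
      linarith
    have h6 : 0 ≤ (1 - q ^ (2 * n - r)) / (1 - q ^ (r + 1)) := by
      have : q ^ (2 * n - r) ≤ 1 := pow_le_one₀ h0.le h1.le
      exact div_nonneg (by linarith) (by linarith)
    calc ff n q s r * (q ^ r * s) * ((1 - q ^ (2 * n - r)) / (1 - q ^ (r + 1))) ≤ ff n q s r * 1 * 1 := by gcongr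
      _ = ff n q s r := by ring
  have hA' : ∀ d, d ≤ n → ff n q s (n - d) ≤ ff n q s n := by
    intro d
    induction d with
    | zero => intro _; exact le_rfl
    | succ d ih =>
      intro hd
      have h2 := hA (n - (d + 1)) (by omega)
      rw [show n - (d + 1) + 1 = n - d by omega] at h2
      exact h2.trans (ih (by omega))
  have hB' : ∀ d, d ≤ n → ff n q s (n + d) ≤ ff n q s n := by
    intro d
    induction d with
    | zero => intro _; exact le_rfl
    | succ d ih =>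
      intro hd
      exact (hB (n + d) (by omega) (by omega)).trans (ih (by omega))
  intro r hr
  rcases le_total r n with h | h
  · have := hA' (n - r) (by omega)
    rwa [show n - (n - r) = r by omega] at this
  · have := hB' (r - n) (by omega)
    rwa [show n + (r - n) = r by omega] at this

lemma prod_two (n : ℕ) (ρ : ℕ → ℝ) (hρ : ∀ j, 0 < ρ j) (B : ℝ) (hB : ∑ i ∈ range n, ρ (n + i) ≤ B) :
    ∏ j ∈ range (2 * n), (1 + 2 * ρ j) ≤ 2 ^ n * Real.exp B * ∏ j ∈ range (2 * n), (1 + ρ j) := by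
  rw [two_mul n, prod_range_add, prod_range_add]
  have h1 : ∏ j ∈ range n, (1 + 2 * ρ j) ≤ 2 ^ n * ∏ j ∈ range n, (1 + ρ j) := by
    calc ∏ j ∈ range n, (1 + 2 * ρ j) ≤ ∏ j ∈ range n, (2 * (1 + ρ j)) :=
          prod_le_prod (fun j _ => by have := hρ j; positivity) fun j _ => by linarith
      _ = 2 ^ n * ∏ j ∈ range n, (1 + ρ j) := by rw [prod_mul_distrib, prod_const, card_range]
  have h2 : ∏ j ∈ range n, (1 + 2 * ρ (n + j)) ≤ Real.exp B * ∏ j ∈ range n, (1 + ρ (n + j)) := by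
    calc ∏ j ∈ range n, (1 + 2 * ρ (n + j)) ≤ ∏ j ∈ range n, (Real.exp (ρ (n + j)) * (1 + ρ (n + j))) := by
          apply prod_le_prod (fun j _ => by have := hρ (n + j); positivity)
          intro j _
          have h3 := hρ (n + j)
          have h4 := Real.add_one_le_exp (ρ (n + j))
          nlinarith
      _ = Real.exp (∑ j ∈ range n, ρ (n + j)) * ∏ j ∈ range n, (1 + ρ (n + j)) := by
          rw [prod_mul_distrib, Real.exp_sum]
      _ ≤ Real.exp B * ∏ j ∈ range n, (1 + ρ (n + j)) := by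
          have : 0 ≤ ∏ j ∈ range n, (1 + ρ (n + j)) := prod_nonneg fun j _ => by have := hρ (n + j); positivity
          gcongr
  have h3 : 0 ≤ ∏ j ∈ range n, (1 + 2 * ρ (n + j)) := prod_nonneg fun j _ => by have := hρ (n + j); positivity
  have h4 : 0 ≤ ∏ j ∈ range n, (1 + ρ j) := prod_nonneg fun j _ => by have := hρ j; positivity
  calc _ ≤ (2 ^ n * ∏ j ∈ range n, (1 + ρ j)) * (Real.exp B * ∏ j ∈ range n, (1 + ρ (n + j))) := by gcongr
    _ = _ := by ring

lemma prod_half (n : ℕ) (ρ : ℕ → ℝ) (hρ : ∀ j, 0 < ρ j) (B : ℝ) (hB : ∑ i ∈ range n, 1 / ρ i ≤ B) :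
    ∏ j ∈ range (2 * n), (1 + 1 / 2 * ρ j) ≤ (1 / 2) ^ n * Real.exp B * ∏ j ∈ range (2 * n), (1 + ρ j) := by
  rw [two_mul n, prod_range_add, prod_range_add]
  have h1 : ∏ j ∈ range n, (1 + 1 / 2 * ρ j) ≤ (1 / 2) ^ n * Real.exp B * ∏ j ∈ range n, (1 + ρ j) := by
    calc ∏ j ∈ range n, (1 + 1 / 2 * ρ j) ≤ ∏ j ∈ range n, (1 / 2 * (Real.exp (1 / ρ j) * (1 + ρ j))) := by
          apply prod_le_prod (fun j _ => by have := hρ j; positivity)
          intro j _
          have h3 := hρ j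
          have h4 := Real.add_one_le_exp (1 / ρ j)
          have h5 : (1 / ρ j + 1) * (1 + ρ j) ≤ Real.exp (1 / ρ j) * (1 + ρ j) := by gcongr
          have h6 : (1 / ρ j + 1) * (1 + ρ j) = 2 + ρ j + 1 / ρ j := by field_simp; ring
          have h7 : 0 < 1 / ρ j := by positivity
          rw [h6] at h5
          linarith
      _ = (1 / 2) ^ n * Real.exp (∑ j ∈ range n, 1 / ρ j) * ∏ j ∈ range n, (1 + ρ j) := by
          rw [prod_mul_distrib, prod_mul_distrib, prod_const, card_range, Real.exp_sum]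
          ring
      _ ≤ (1 / 2) ^ n * Real.exp B * ∏ j ∈ range n, (1 + ρ j) := by
          have : 0 ≤ ∏ j ∈ range n, (1 + ρ j) := prod_nonneg fun j _ => by have := hρ j; positivity
          gcongr
  have h2 : ∏ j ∈ range n, (1 + 1 / 2 * ρ (n + j)) ≤ ∏ j ∈ range n, (1 + ρ (n + j)) := by
    apply prod_le_prod (fun j _ => by have := hρ (n + j); positivity)
    intro j _
    have := hρ (n + j)
    linarith
  have h3 : 0 ≤ ∏ j ∈ range n, (1 + 1 / 2 * ρ (n + j)) := prod_nonneg fun j _ => by have := hρ (n + j); positivity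
  have h4 : 0 ≤ ∏ j ∈ range n, (1 + ρ j) := prod_nonneg fun j _ => by have := hρ j; positivity
  calc _ ≤ ((1 / 2) ^ n * Real.exp B * ∏ j ∈ range n, (1 + ρ j)) * (∏ j ∈ range n, (1 + ρ (n + j))) := by gcongr
    _ = _ := by ring

theorem t_MO (h : S_QBT) : S_MO := by
  refine ⟨1 / 24, by norm_num, ?_⟩
  intro n α hn hα hN
  obtain ⟨q, hq⟩ : ∃ q, q = Real.exp (-α) := ⟨_, rfl⟩
  obtain ⟨s, hs⟩ : ∃ s, s = Real.exp (α * ((n : ℝ) - 1 / 2)) := ⟨_, rfl⟩
  rw [← hq, ← hs]
  have hq0 : 0 < q := hq ▸ Real.exp_pos _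
  have hq1 : q < 1 := by
    rw [hq]
    rw [← Real.exp_zero]
    exact Real.exp_lt_exp.2 (by linarith)
  have hs0 : 0 < s := hs ▸ Real.exp_pos _
  have hqs : ∀ j : ℕ, q ^ j * s = Real.exp (α * ((n : ℝ) - 1 / 2 - j)) := by
    intro j
    rw [hq, hs, ← Real.exp_nat_mul, ← Real.exp_add]
    congr 1
    ring
  have hwne : ∀ i : ℕ, 1 ≤ i → q ^ i ≠ 1 := fun i hi => (pow_lt_one' hq0 hq1 hi).ne
  have hsum : ∀ x : ℝ, ∏ j ∈ range (2 * n), (1 + x * s * q ^ j) = ∑ r ∈ range (2 * n + 1), ff n q s r * x ^ r := by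
    intro x
    rw [h ℝ (2 * n) q (x * s) hwne]
    apply sum_congr rfl
    intro r _
    unfold ff
    rw [mul_pow]
    ring
  have hmax : ∀ r, r ≤ 2 * n → ff n q s r ≤ ff n q s n := by
    apply ff_le hq0 hq1 hs0
    · intro r hr
      rw [hqs]
      apply Real.one_le_exp
      have : (r : ℝ) + 1 ≤ n := by exact_mod_cast hr
      nlinarith
    · intro r hr
      rw [hqs]
      apply Real.exp_le_one_iff.2
      have : (n : ℝ) ≤ r := by exact_mod_cast hr
      nlinarith
  have hgeo := geo n α hα hN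
  rw [← hq] at hgeo
  obtain ⟨P, hP⟩ : ∃ P, P = ∏ j ∈ range (2 * n), (1 + s * q ^ j) := ⟨_, rfl⟩
  have hP0 : 0 < P := by
    rw [hP]
    exact prod_pos fun j _ => by positivity
  have hF1 : ∑ r ∈ range (2 * n + 1), ff n q s r = P := by
    have := hsum 1
    simp only [one_pow, mul_one, one_mul] at this
    rw [← this, hP]
  -- the exponential moments
  have hF2 : ∑ r ∈ range (2 * n + 1), ff n q s r * 2 ^ r ≤ 2 ^ n * Real.exp (2 * NN n α) * P := by
    rw [← hsum 2, hP]
    refine le_trans (le_of_eq ?_) (prod_two n (fun j => s * q ^ j) (fun j => by positivity) (2 * NN n α) ?_)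
    · apply prod_congr rfl
      intro j _
      ring
    · refine le_trans (sum_le_sum fun i _ => ?_) hgeo
      rw [mul_comm s, hqs, hq, ← Real.exp_nat_mul]
      apply Real.exp_le_exp.2
      push_cast
      nlinarith
  have hF3 : ∑ r ∈ range (2 * n + 1), ff n q s r * (1 / 2) ^ r ≤ (1 / 2) ^ n * Real.exp (2 * NN n α) * P := by
    rw [← hsum (1 / 2), hP]
    refine le_trans (le_of_eq ?_) (prod_half n (fun j => s * q ^ j) (fun j => by positivity) (2 * NN n α) ?_)
    · apply prod_congr rfl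
      intro j _
      ring
    · rw [← sum_range_reflect]
      refine le_trans (sum_le_sum fun i hi => ?_) hgeo
      have hi' : i < n := mem_range.1 hi
      rw [mul_comm s, hqs, hq, ← Real.exp_nat_mul, one_div, ← Real.exp_neg]
      apply Real.exp_le_exp.2
      have h5 : ((n - 1 - i : ℕ) : ℝ) = n - 1 - i := by
        rw [Nat.cast_sub (by omega), Nat.cast_sub (by omega)]
        simp
      rw [h5]
      nlinarith
  -- the number of the main terms
  obtain ⟨M, hM⟩ : ∃ M : ℕ, M = ⌈5 * NN n α⌉₊ := ⟨_, rfl⟩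
  have hM1 : 5 * NN n α ≤ M := hM ▸ Nat.le_ceil _
  have hM2 : (M : ℝ) ≤ 5 * NN n α + 1 := by
    rw [hM]
    exact (Nat.ceil_lt_add_one (by linarith)).le
  have hpow : 4 * Real.exp (2 * NN n α) ≤ (2 : ℝ) ^ M := by
    have h1 : (2 : ℝ) ^ M = Real.exp (M * Real.log 2) := by
      rw [Real.exp_nat_mul, Real.exp_log (by norm_num)]
    have h2 : (4 : ℝ) = Real.exp (2 * Real.log 2) := by
      rw [show (2 : ℝ) * Real.log 2 = ((2 : ℕ) : ℝ) * Real.log 2 by norm_num, Real.exp_nat_mul, Real.exp_log (by norm_num)]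
      norm_num
    rw [h1, h2, ← Real.exp_add]
    apply Real.exp_le_exp.2
    have h3 := Real.log_two_gt_d9
    have h4 := Real.log_two_lt_d9
    nlinarith
  have hterm : ∀ r ∈ range (2 * n + 1), ff n q s r ≤ (if r ∈ Ico (n + 1 - M) (n + M) then ff n q s n else 0) +
      (ff n q s r * 2 ^ r / (2 ^ n * 2 ^ M) + ff n q s r * (1 / 2) ^ r * 2 ^ n / 2 ^ M) := by
    intro r hr
    have hr' : r ≤ 2 * n := by have := mem_range.1 hr; omega
    have h1 := ff_nonneg hq0 hq1 hs0 n r hr'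
    have h2 : 0 ≤ ff n q s r * 2 ^ r / (2 ^ n * 2 ^ M) := by positivity
    have h3 : 0 ≤ ff n q s r * (1 / 2) ^ r * 2 ^ n / 2 ^ M := by positivity
    by_cases hc : r ∈ Ico (n + 1 - M) (n + M)
    · rw [if_pos hc]
      have := hmax r hr'
      linarith
    · rw [if_neg hc]
      rw [mem_Ico] at hc
      rcases Nat.lt_or_ge r (n + M) with h4 | h4
      · have h5 : r + M ≤ n := by omega
        have h6 : ff n q s r ≤ ff n q s r * (1 / 2) ^ r * 2 ^ n / 2 ^ M := by
          rw [le_div_iff₀ (by positivity)]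
          have h7 : (2 : ℝ) ^ n = 2 ^ r * 2 ^ M * 2 ^ (n - (r + M)) := by
            rw [← pow_add, ← pow_add]; congr 1; omega
          have h8 : (1 : ℝ) ≤ 2 ^ (n - (r + M)) := one_le_pow₀ (by norm_num)
          have h9 : ((1 : ℝ) / 2) ^ r * 2 ^ r = 1 := by
            rw [← mul_pow]; norm_num
          calc ff n q s r * 2 ^ M ≤ ff n q s r * 2 ^ M * 2 ^ (n - (r + M)) := by
                have : 0 ≤ ff n q s r * 2 ^ M := by positivity
                nlinarith
            _ = ff n q s r * (1 / 2) ^ r * 2 ^ n := by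
                rw [h7]
                linear_combination (-(ff n q s r * 2 ^ M * 2 ^ (n - (r + M)))) * h9
        linarith
      · have h6 : ff n q s r ≤ ff n q s r * 2 ^ r / (2 ^ n * 2 ^ M) := by
          rw [le_div_iff₀ (by positivity)]
          have h7 : (2 : ℝ) ^ n * 2 ^ M ≤ 2 ^ r := by
            rw [← pow_add]
            exact pow_le_pow_right₀ (by norm_num) h4
          gcongr
        linarith
  have htot : P ≤ 2 * M * ff n q s n + P / 2 := by
    rw [← hF1]
    refine (sum_le_sum hterm).trans ?_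
    rw [sum_add_distrib, sum_add_distrib, hF1]
    have h1 : ∑ r ∈ range (2 * n + 1), (if r ∈ Ico (n + 1 - M) (n + M) then ff n q s n else 0) ≤ 2 * M * ff n q s n := by
      rw [← sum_filter, sum_const, nsmul_eq_mul]
      have h2 : ((range (2 * n + 1)).filter (fun r => r ∈ Ico (n + 1 - M) (n + M))).card ≤ 2 * M := by
        calc _ ≤ (Ico (n + 1 - M) (n + M)).card := card_le_card fun r hr => (mem_filter.1 hr).2
          _ = n + M - (n + 1 - M) := Nat.card_Ico _ _
          _ ≤ 2 * M := by omega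
      have h3 : ((((range (2 * n + 1)).filter (fun r => r ∈ Ico (n + 1 - M) (n + M))).card : ℕ) : ℝ) ≤ 2 * M := by
        exact_mod_cast h2
      have h4 := ff_nonneg hq0 hq1 hs0 n n (by omega)
      gcongr
    have h2 : ∑ r ∈ range (2 * n + 1), ff n q s r * 2 ^ r / (2 ^ n * 2 ^ M) ≤ P / 4 := by
      rw [← sum_div, div_le_iff₀ (by positivity)]
      refine hF2.trans ?_
      have h5 : 4 * Real.exp (2 * NN n α) * (2 ^ n * P) ≤ 2 ^ M * (2 ^ n * P) := by gcongr
      linarith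
    have h3 : ∑ r ∈ range (2 * n + 1), ff n q s r * (1 / 2) ^ r * 2 ^ n / 2 ^ M ≤ P / 4 := by
      rw [← sum_div, ← sum_mul, div_le_iff₀ (by positivity)]
      have h6 : ((1 : ℝ) / 2) ^ n * 2 ^ n = 1 := by
        rw [← mul_pow]; norm_num
      calc (∑ r ∈ range (2 * n + 1), ff n q s r * (1 / 2) ^ r) * 2 ^ n
          ≤ ((1 / 2) ^ n * Real.exp (2 * NN n α) * P) * 2 ^ n := by gcongr
        _ = Real.exp (2 * NN n α) * P := by linear_combination (Real.exp (2 * NN n α) * P) * h6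
        _ ≤ P / 4 * 2 ^ M := by
          have h5 : 4 * Real.exp (2 * NN n α) * P ≤ 2 ^ M * P := by gcongr
          linarith
    linarith
  have hfn := ff_nonneg hq0 hq1 hs0 n n (by omega)
  have hgoal : P ≤ 24 * NN n α * ff n q s n := by
    have h1 : P ≤ 4 * M * ff n q s n := by linarith
    refine h1.trans ?_
    have h2 : 4 * (M : ℝ) ≤ 24 * NN n α := by linarith
    gcongr
  change 1 / 24 / NN n α * ∏ j ∈ range (2 * n), (1 + s * q ^ j) ≤ ff n q s n
  rw [← hP]
  have hN0 : 0 < NN n α := by linarith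
  rw [div_mul_eq_mul_div, div_le_iff₀ hN0]
  linarith

end V5helper84.QC
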